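import Pool.Agent.H516.PCF.All

/-! `S_SMALL` of the theorem on postcritically finite towers (MP_392fd3_nt), by helper249 for
helper516. -/

set_option autoImplicit false

namespace Pool.Agent.H249.PCF

open Polynomial
open Pool.Agent.H516.PCF

/-- Small slopes are divisible by a high power of `p`. -/
theorem small (hNAB : S_NAB) (hGVB : S_GVB) (hUM : S_UM) (hSL : S_SL) (hOFIB : S_OFIB) :
    Pool.Agent.H516.PCF.S_SMALL := by
  intro F _ _ _ p w d P Q A O hL γ γ' hne n j V R a ρ hV hR hb hb' hsum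
  obtain ⟨_, h2, h3, h4, _, h6, h7, _⟩ := hOFIB F p w d P Q A O hL n
  obtain ⟨-, -, -, -, -, -, -, -, -, hint, -, -⟩ := hNAB F p w hL.prime hL.na
  obtain ⟨-, hC, -, -, -, -⟩ := hGVB F p w hL.prime hL.na
  have hp : p.Prime := hL.prime
  have hpos : 0 < w (p : F) := hL.na.pos
  have hd : γ - γ' ≠ 0 := sub_ne_zero.2 hne
  have hCd : (C (γ - γ') : F[X]) ≠ 0 := C_ne_zero.2 hd
  have hw1 : wr (gp d P Q n γ) (gp d P Q n γ') = C (γ - γ') * wr (pn d P Q n) (qn d P Q n) :=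
    h6 γ γ'
  have hw2 : wr (gp d P Q n γ) (gp d P Q n γ') ≠ 0 := by
    rw [hw1]
    exact mul_ne_zero hCd h4
  -- the three-term relation
  have hu := hUM F p w hp hL.na (gp d P Q n γ) (C (γ - γ') * qn d P Q n) (gp d P Q n γ')
    (h2 γ) (mul_ne_zero hCd h3) (h2 γ') (h7 γ γ') a ρ
  have hq : gv w (C (γ - γ') * qn d P Q n) a ρ = w (γ - γ') + gv w (qn d P Q n) a ρ :=
    hC _ _ hd h3 a ρ
  have hW : gv w (C (γ - γ') * wr (pn d P Q n) (qn d P Q n)) a ρ =
      w (γ - γ') + gv w (wr (pn d P Q n) (qn d P Q n)) a ρ := hC _ _ hd h4 a ρ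
  rcases hSL F p w hp hL.na (gp d P Q n γ) (gp d P Q n γ') (h2 γ) (h2 γ') hw2 a ρ hb hb' _ rfl
    with h0 | h0
  · rw [h0]
    exact dvd_zero _
  by_cases hm : (cnt w (gp d P Q n γ) a ρ : ℤ) - cnt w (gp d P Q n γ') a ρ = 0
  · rw [hm]
    exact dvd_zero _
  rw [hint _ hm, hw1, hW] at h0
  have hmin : gv w (gp d P Q n γ) a ρ ≤ gv w (C (γ - γ') * qn d P Q n) a ρ ∨
      gv w (gp d P Q n γ') a ρ ≤ gv w (C (γ - γ') * qn d P Q n) a ρ := by
    rcases le_or_gt (gv w (gp d P Q n γ) a ρ) (gv w (C (γ - γ') * qn d P Q n) a ρ) with h | h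
    · exact Or.inl h
    · exact Or.inr (hu.2.2 h).le
  rw [hq] at hmin
  unfold DF at hV
  unfold vf at hsum
  generalize gv w (gp d P Q n γ) a ρ = x at *
  generalize gv w (gp d P Q n γ') a ρ = x' at *
  generalize gv w (qn d P Q n) a ρ = y at *
  generalize gv w (wr (pn d P Q n) (qn d P Q n)) a ρ = z at *
  generalize w (γ - γ') = e at *
  have habs1 := le_abs_self (x - y - (x' - y))
  have habs2 := neg_abs_le (x - y - (x' - y))
  have key : (j : ℝ) * w (p : F) ≤ w (p : F) *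
      padicValInt p ((cnt w (gp d P Q n γ) a ρ : ℤ) - cnt w (gp d P Q n γ') a ρ) := by
    refine le_trans ?_ h0
    rcases hmin with h | h
    · linarith
    · linarith
  rw [mul_comm] at key
  have hj : j ≤ padicValInt p ((cnt w (gp d P Q n γ) a ρ : ℤ) - cnt w (gp d P Q n γ') a ρ) := by
    exact_mod_cast le_of_mul_le_mul_left key hpos
  have : Fact p.Prime := ⟨hp⟩
  rw [padicValInt_dvd_iff]
  exact Or.inr hj

end Pool.Agent.H249.PCF
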